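import Pool.Agent.H12.TB4

/-! Stability of the second kind holds for all admissible pairs exactly when β < 1/3. -/

open MeasureTheory Set Function

namespace Pool.Agent.Results.MP_a755a8_mp.Threshold

/-- admissible pairs of a three-body potential `V` and a two-body potential `W` -/
structure Admissible (V : (Fin 3 → ℝ) × (Fin 3 → ℝ) → ℝ) (W : (Fin 3 → ℝ) → ℝ) : Prop where
  measV : Measurable V
  nonneg : ∀ U, 0 ≤ V U
  bddV : ∃ M, ∀ U, V U ≤ M
  cptV : HasCompactSupport V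
  ne_zero : ¬ V =ᵐ[volume] 0
  swap : ∀ x y, V (x, y) = V (y, x)
  perm : ∀ x y z, V (x - y, x - z) = V (y - x, y - z) ∧ V (y - x, y - z) = V (z - y, z - x)
  measW : Measurable W
  nonpos : ∀ x, W x ≤ 0
  even : ∀ x, W (-x) = W x
  bddW : ∃ M, ∀ x, -M ≤ W x
  cptW : HasCompactSupport W

/-- the quadratic form of `H_N^Comb` at `ψ` -/
noncomputable def energy (Vext : (Fin 3 → ℝ) → ℝ) (V : (Fin 3 → ℝ) × (Fin 3 → ℝ) → ℝ)
    (W : (Fin 3 → ℝ) → ℝ) (β : ℝ) (N : ℕ) (ψ : (Fin N → Fin 3 → ℝ) → ℂ) : ℝ :=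
  ∫ X, ((∑ i, ∑ a, ‖fderiv ℝ ψ X (Pi.single i (Pi.single a 1))‖ ^ 2) +
    ((∑ i, Vext (X i)) +
      (∑ i, ∑ j, if i < j then (N : ℝ) ^ (3 * β - 1) * W ((N : ℝ) ^ β • (X i - X j)) else 0) +
      ∑ i, ∑ j, ∑ k, if i < j ∧ j < k then
        (N : ℝ) * V ((N : ℝ) ^ (1 / 2 : ℝ) • (X i - X j), (N : ℝ) ^ (1 / 2 : ℝ) • (X i - X k))
        else 0) * ‖ψ X‖ ^ 2)

/-- stability of the second kind on smooth compactly supported bosonic wave functions -/
def Stable (Vext : (Fin 3 → ℝ) → ℝ) (V : (Fin 3 → ℝ) × (Fin 3 → ℝ) → ℝ) (W : (Fin 3 → ℝ) → ℝ)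
    (β : ℝ) : Prop :=
  ∃ C : ℝ, 0 < C ∧ ∀ N : ℕ, 1 ≤ N → ∀ ψ : (Fin N → Fin 3 → ℝ) → ℂ, ContDiff ℝ (⊤ : ℕ∞) ψ →
    HasCompactSupport ψ → (∀ (σ : Equiv.Perm (Fin N)) X, ψ (X ∘ σ) = ψ X) →
      -(C * N) * ∫ X, ‖ψ X‖ ^ 2 ≤ energy Vext V W β N ψ

open H12.TB1 H12.TB2 H12.TB3 H12.TB4

lemma stable {Vext : E → ℝ} (h0 : ∀ x, 0 ≤ Vext x) (hm : Measurable Vext)
    (hb : ∀ r, ∃ M, ∀ x, ‖x‖ ≤ r → |Vext x| ≤ M) {V : E × E → ℝ} {W : E → ℝ}
    (h : Admissible V W) {β : ℝ} (hβ : 0 < β) (hβ' : β < 1 / 3) : Stable Vext V W β := by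
  obtain ⟨R, C, hR, hC, h1⟩ := lower h.measV h.nonneg h.cptV h.ne_zero
  obtain ⟨M, hM⟩ := h.bddW
  obtain ⟨M', hM'⟩ := h.bddV
  have hM0 : 0 ≤ M := by linarith [hM 0, h.nonpos 0]
  obtain ⟨ρ, hρ, hρ'⟩ := h.cptW.isCompact.isBounded.exists_pos_norm_le
  obtain ⟨D, hD, h2⟩ := params hR hC (show 0 ≤ 324 * M by positivity) hρ hβ hβ'
  refine ⟨D, hD, fun N hN ψ hψ hc _ => ?_⟩
  choose kf κ hk hκ h3 h4 using h2 N hN
  have hN0 : (0 : ℝ) < N := by exact_mod_cast hN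
  have hb0 : 0 < (N : ℝ) ^ β := by positivity
  have hψ1 : ContDiff ℝ 1 ψ := hψ.of_le (by simp)
  have h5 := h1 N ψ _ _ kf κ hψ1 (by positivity) (div_pos hρ hb0) hk hκ h3
  obtain ⟨Q, hQ⟩ : ∃ Q : (Fin N → E) → ℝ, Q = fun X => ∑ i, ∑ j,
    if i < j then (N : ℝ) ^ (3 * β - 1) * W ((N : ℝ) ^ β • (X i - X j)) else 0 := ⟨_, rfl⟩
  obtain ⟨U, hU⟩ : ∃ U : (Fin N → E) → ℝ, U = fun X => ∑ i, ∑ j, ∑ k, if i < j ∧ j < k then
    (N : ℝ) * V ((N : ℝ) ^ (1 / 2 : ℝ) • (X i - X j), (N : ℝ) ^ (1 / 2 : ℝ) • (X i - X k)) else 0 :=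
    ⟨_, rfl⟩
  have hQ0 : ∀ X, Q X ≤ 0 := fun X => by
    rw [hQ]
    refine Finset.sum_nonpos fun i _ => Finset.sum_nonpos fun j _ => ?_
    split_ifs
    exacts [mul_nonpos_of_nonneg_of_nonpos (by positivity) (h.nonpos _), le_rfl]
  have hE : ∀ X, En V ((N : ℝ) ^ (1 / 2 : ℝ))⁻¹ ψ Finset.univ X =
      ∑ i, T ψ i X + U X * ‖ψ X‖ ^ 2 := fun X => by
    have : (((N : ℝ) ^ (1 / 2 : ℝ))⁻¹ ^ 2)⁻¹ = N := by
      rw [inv_pow, inv_inv, ← Real.rpow_natCast, ← Real.rpow_mul hN0.le]; norm_num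
    simp only [En, hU, Finset.sum_product, inv_inv, this, Finset.sum_mul, ite_mul, zero_mul]
  have h6 : ∀ X, -Q X ≤ (∑ i, κ (nb (fun l => cid (ρ / (N : ℝ) ^ β) (X l))
      (cid (ρ / (N : ℝ) ^ β) (X i)))) / 6 + D * N := fun X => by
    have h7 := pairs_le (fun l => cid (ρ / (N : ℝ) ^ β) (X l))
      (fun i j => W ((N : ℝ) ^ β • (X i - X j)) ≠ 0) fun i j hij a => by
        have h8 := (norm_le_pi_norm _ a).trans (hρ' _ (subset_tsupport _ hij))
        rw [Pi.smul_apply, Pi.sub_apply, smul_eq_mul, Real.norm_eq_abs, abs_le] at h8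
        have h9 : ∀ x y : ℝ, (N : ℝ) ^ β * (x - y) ≤ ρ →
            ⌊x / (ρ / (N : ℝ) ^ β)⌋ ≤ ⌊y / (ρ / (N : ℝ) ^ β)⌋ + 1 := fun x y hxy => by
          rw [← Int.floor_add_one]
          refine Int.floor_mono ?_
          rw [← sub_le_iff_le_add', ← sub_div, div_le_one (by positivity), le_div_iff₀' hb0]
          exact hxy
        have h10 := h9 _ _ h8.2
        have h11 := h9 (X j a) (X i a) (by linarith [h8.1])
        simp only [cid, abs_le]
        omega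
    generalize hτ : (fun l => cid (ρ / (N : ℝ) ^ β) (X l)) = τ at h7 ⊢
    simp only [show ∀ i, cid (ρ / (N : ℝ) ^ β) (X i) = τ i from congrFun hτ] at h7 ⊢
    have h8 : (∑ i, ∑ j, if W ((N : ℝ) ^ β • (X i - X j)) ≠ 0 then 1 else 0 : ℝ) ≤
      54 * ∑ i, (nb τ (τ i) : ℝ) := by exact_mod_cast h7
    have h9 : -Q X ≤ M * (N : ℝ) ^ (3 * β - 1) *
        ∑ i, ∑ j, if W ((N : ℝ) ^ β • (X i - X j)) ≠ 0 then 1 else 0 := by
      simp only [hQ, ← Finset.sum_neg_distrib, Finset.mul_sum]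
      refine Finset.sum_le_sum fun i _ => Finset.sum_le_sum fun j _ => ?_
      have h10 := hM ((N : ℝ) ^ β • (X i - X j))
      have h11 : 0 < (N : ℝ) ^ (3 * β - 1) := by positivity
      split_ifs with h12 h13 h13
      · nlinarith
      · simp [not_not.mp h13]
      · nlinarith
      · simp
    have h10 := Finset.sum_le_sum fun i (_ : i ∈ Finset.univ) => h4 (nb τ (τ i))
      ((Finset.card_filter_le _ _).trans_eq (by simp))
    simp only [← Finset.mul_sum, Finset.sum_add_distrib, Finset.sum_const, Finset.card_univ,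
      Fintype.card_fin, nsmul_eq_mul] at h10
    nlinarith [mul_le_mul_of_nonneg_left h8 (show 0 ≤ M * (N : ℝ) ^ (3 * β - 1) by positivity),
      mul_pos hD hN0]
  have hG : Continuous fun X => ‖ψ X‖ ^ 2 := by have := hψ.continuous; fun_prop
  have hGc : HasCompactSupport fun X => ‖ψ X‖ ^ 2 :=
    hc.comp_left (g := fun z : ℂ => ‖z‖ ^ 2) (by simp)
  have i0 := hG.integrable_of_hasCompactSupport (μ := volume) hGc
  have iT : Integrable fun X => ∑ i, T ψ i X := integrable_finsetSum _ fun i _ =>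
    (T_cont hψ1 i).integrable_of_hasCompactSupport ((hc.fderiv ℝ).comp_left
      (g := fun L : (Fin N → E) →L[ℝ] ℂ => ∑ a, ‖L (Pi.single i (Pi.single a 1))‖ ^ 2) (by simp))
  have iQ : Integrable fun X => Q X * ‖ψ X‖ ^ 2 := by
    simp only [hQ, Finset.sum_mul]
    refine integrable_finsetSum _ fun i _ => integrable_finsetSum _ fun j _ => ?_
    split_ifs
    · refine int_mul (by have := h.measW; fun_prop) hG hGc fun _ =>
        ⟨(N : ℝ) ^ (3 * β - 1) * M, fun X _ => ?_⟩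
      rw [abs_mul, abs_of_nonneg (by positivity), abs_of_nonpos (h.nonpos _)]
      gcongr
      linarith [hM ((N : ℝ) ^ β • (X i - X j))]
    · simp
  have iU : Integrable fun X => U X * ‖ψ X‖ ^ 2 := by
    simp only [hU, Finset.sum_mul]
    refine integrable_finsetSum _ fun i _ => integrable_finsetSum _ fun j _ =>
      integrable_finsetSum _ fun k _ => ?_
    split_ifs
    · refine int_mul (by have := h.measV; fun_prop) hG hGc fun _ => ⟨N * M', fun X _ => ?_⟩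
      rw [abs_mul, abs_of_nonneg hN0.le, abs_of_nonneg (h.nonneg _)]
      gcongr
      exact hM' _
    · simp
  have iV : Integrable fun X => (∑ i, Vext (X i)) * ‖ψ X‖ ^ 2 := by
    simp only [Finset.sum_mul]
    exact integrable_finsetSum _ fun i _ => int_mul (by fun_prop) hG hGc fun r =>
      (hb r).imp fun M hM X hX => hM _ ((norm_le_pi_norm X i).trans hX)
  have hU0 : ∀ X, 0 ≤ U X := fun X => by
    rw [hU]
    refine Finset.sum_nonneg fun i _ => Finset.sum_nonneg fun j _ => Finset.sum_nonneg fun k _ => ?_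
    split_ifs
    exacts [mul_nonneg hN0.le (h.nonneg _), le_rfl]
  have hT0 : ∀ X, 0 ≤ ∑ i, T ψ i X := fun X => Finset.sum_nonneg fun _ _ => T_nonneg _ _ _
  have h7 : ∫ X, -(Q X * ‖ψ X‖ ^ 2) ≤ (∫ X, (∑ i, T ψ i X + U X * ‖ψ X‖ ^ 2)) +
      ∫ X, D * N * ‖ψ X‖ ^ 2 := by
    have n1 : ∀ X, 0 ≤ ∑ i, T ψ i X + U X * ‖ψ X‖ ^ 2 := fun X =>
      add_nonneg (hT0 X) (mul_nonneg (hU0 X) (sq_nonneg _))
    have n2 : ∀ X, 0 ≤ D * N * ‖ψ X‖ ^ 2 := fun X => by positivity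
    rw [← ENNReal.ofReal_le_ofReal_iff (add_nonneg (integral_nonneg n1) (integral_nonneg n2)),
      ENNReal.ofReal_add (integral_nonneg n1) (integral_nonneg n2),
      ofReal_integral_eq_lintegral_ofReal (f := fun X => -(Q X * ‖ψ X‖ ^ 2)) iQ.neg
        (ae_of_all _ fun X => neg_nonneg.mpr (mul_nonpos_of_nonpos_of_nonneg (hQ0 X) (sq_nonneg _))),
      ofReal_integral_eq_lintegral_ofReal (f := fun X => ∑ i, T ψ i X + U X * ‖ψ X‖ ^ 2)
        (iT.add iU) (ae_of_all _ n1),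
      ofReal_integral_eq_lintegral_ofReal (i0.const_mul _) (ae_of_all _ n2)]
    simp only [hE] at h5
    refine le_trans ?_ (add_le_add h5 le_rfl)
    rw [← lintegral_add_right _ (by have := hG.measurable; fun_prop)]
    refine lintegral_mono fun X => le_trans (ENNReal.ofReal_le_ofReal ?_) ENNReal.ofReal_add_le
    nlinarith [mul_le_mul_of_nonneg_right (h6 X) (sq_nonneg ‖ψ X‖)]
  have h8 : energy Vext V W β N ψ = (∫ X, (∑ i, T ψ i X + U X * ‖ψ X‖ ^ 2)) +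
      (∫ X, Q X * ‖ψ X‖ ^ 2) + ∫ X, (∑ i, Vext (X i)) * ‖ψ X‖ ^ 2 := by
    have i1 : Integrable fun X => ∑ i, T ψ i X + U X * ‖ψ X‖ ^ 2 := iT.add iU
    have i2 : Integrable fun X => ∑ i, T ψ i X + U X * ‖ψ X‖ ^ 2 + Q X * ‖ψ X‖ ^ 2 := i1.add iQ
    rw [← integral_add i1 iQ, ← integral_add i2 iV, energy]
    refine integral_congr_ae (ae_of_all _ fun X => ?_)
    simp only [hQ, hU, T]
    ring
  have h9 : 0 ≤ ∫ X, (∑ i, Vext (X i)) * ‖ψ X‖ ^ 2 := integral_nonneg fun X =>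
    mul_nonneg (Finset.sum_nonneg fun i _ => h0 _) (sq_nonneg _)
  rw [integral_neg, integral_const_mul] at h7
  linarith

lemma unstable {Vext : E → ℝ} (hm : Measurable Vext)
    (hb : ∀ r, ∃ M, ∀ x, ‖x‖ ≤ r → |Vext x| ≤ M) {β : ℝ} (hβ : 1 / 3 ≤ β) :
    ∃ V W, Admissible V W ∧ ¬ Stable Vext V W β := by
  obtain ⟨c, hc, h1⟩ := trial
  obtain ⟨M, hM⟩ := hb 1
  have hO : IsOpen {U : E × E | ‖U.1‖ + ‖U.2‖ + ‖U.1 - U.2‖ ∈ Ioo (1 : ℝ) 5} :=
    isOpen_Ioo.preimage (by fun_prop)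
  refine ⟨indicator {U : E × E | ‖U.1‖ + ‖U.2‖ + ‖U.1 - U.2‖ ∈ Ioo (1 : ℝ) 5} 1,
    indicator (Metric.closedBall 0 1) fun _ => -(4 * (36 * c + 1)),
    ⟨measurable_one.indicator hO.measurableSet, fun U => indicator_nonneg (fun _ _ => zero_le_one) _,
      ⟨1, fun U => indicator_le_self' (fun _ _ => zero_le_one) _⟩, ?_, fun h => ?_, fun x y => ?_,
      fun x y z => ?_, measurable_const.indicator measurableSet_closedBall,
      fun x => indicator_nonpos (fun _ _ => by linarith) _, fun x => ?_,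
      ⟨4 * (36 * c + 1), fun x => ?_⟩, ?_⟩, fun ⟨C, hC, h⟩ => ?_⟩
  · refine HasCompactSupport.of_support_subset_isCompact (isCompact_closedBall 0 5)
      (support_indicator_subset.trans fun U hU => ?_)
    rw [mem_closedBall_zero_iff, norm_prod_le_iff]
    constructor <;> linarith [hU.2, norm_nonneg U.1, norm_nonneg U.2, norm_nonneg (U.1 - U.2)]
  · refine hO.measure_ne_zero volume ⟨(1, 1), by norm_num⟩ (measure_mono_null (fun U hU => ?_) h)
    exact fun h => one_ne_zero ((indicator_of_mem hU _).symm.trans h)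
  · simp only [indicator, mem_ofPred_eq, Pi.one_apply, norm_sub_rev y x, add_comm ‖y‖]
  · simp only [indicator, mem_ofPred_eq, Pi.one_apply, sub_sub_sub_cancel_left, norm_sub_rev y x,
      norm_sub_rev z x, norm_sub_rev z y]
    rw [show ‖x - y‖ + ‖y - z‖ + ‖x - z‖ = ‖x - y‖ + ‖x - z‖ + ‖y - z‖ by ring,
      show ‖y - z‖ + ‖x - z‖ + ‖x - y‖ = ‖x - y‖ + ‖x - z‖ + ‖y - z‖ by ring]
    exact ⟨rfl, rfl⟩
  · simp only [indicator, mem_closedBall_zero_iff, norm_neg]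
  · unfold indicator; split_ifs <;> linarith
  · exact HasCompactSupport.of_support_subset_isCompact (isCompact_closedBall 0 1)
      support_indicator_subset
  obtain ⟨N, hN⟩ := exists_nat_gt (C + |M| + 2)
  have hN2 : (2 : ℝ) ≤ N := by linarith [abs_nonneg M]
  have hN1 : (1 : ℝ) ≤ N := by linarith
  obtain ⟨ψ, p1, p2, p3, p4, p5, p6, p7⟩ := h1 N (6 * (N : ℝ) ^ (3 * β / 2)) (by positivity)
  have h2 := h N (by exact_mod_cast hN1) ψ p1 p2 p3
  have hG : Continuous fun X => ‖ψ X‖ ^ 2 := by have := p1.continuous; fun_prop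
  have hGc : HasCompactSupport fun X => ‖ψ X‖ ^ 2 :=
    p2.comp_left (g := fun z : ℂ => ‖z‖ ^ 2) (by simp)
  have i0 := hG.integrable_of_hasCompactSupport (μ := volume) hGc
  have iV : Integrable fun X => (∑ i, Vext (X i)) * ‖ψ X‖ ^ 2 := by
    simp only [Finset.sum_mul]
    exact integrable_finsetSum _ fun i _ => int_mul (by fun_prop) hG hGc fun r =>
      (hb r).imp fun M hM X hX => hM _ ((norm_le_pi_norm X i).trans hX)
  have h3 : ∀ X, ψ X ≠ 0 → ∀ (γ : ℝ) i j, γ ≤ 3 * β / 2 → ‖(N : ℝ) ^ γ • (X i - X j)‖ ≤ 1 / 3 :=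
    fun X hX γ i j hγ => by
      rw [norm_smul, Real.norm_of_nonneg (by positivity)]
      have := mul_le_mul (Real.rpow_le_rpow_of_exponent_le hN1 hγ) (norm_sub_le (X i) (X j))
        (norm_nonneg _) (by positivity)
      linarith [p4 X hX i, p4 X hX j]
  have i1 : Integrable fun X => ∑ i, T ψ i X + (∑ i, Vext (X i)) * ‖ψ X‖ ^ 2 := p6.add iV
  replace h2 := h2.trans_eq (integral_congr_ae (g := fun X => ∑ i, T ψ i X +
    (∑ i, Vext (X i)) * ‖ψ X‖ ^ 2 + -(4 * (36 * c + 1)) * (N : ℝ) ^ (3 * β - 1) *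
      (N * (N - 1) / 2) * ‖ψ X‖ ^ 2) (ae_of_all _ fun X => ?_))
  · rw [integral_add i1 (i0.const_mul _), integral_add p6 iV, p7, integral_const_mul] at h2
    have h4 : ∫ X, (∑ i, Vext (X i)) * ‖ψ X‖ ^ 2 ≤ N * |M| * ∫ X, ‖ψ X‖ ^ 2 := by
      rw [← integral_const_mul]
      refine integral_mono iV (i0.const_mul _) fun X => ?_
      by_cases hX : ψ X = 0
      · simp [hX]
      refine mul_le_mul_of_nonneg_right ((Finset.sum_le_sum (g := fun _ => |M|) fun i _ =>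
        (le_abs_self _).trans ((hM _ ?_).trans (le_abs_self _))).trans_eq (by simp)) (sq_nonneg _)
      nlinarith [p4 X hX i, Real.one_le_rpow hN1 (show 0 ≤ 3 * β / 2 by linarith),
        norm_nonneg (X i)]
    have h5 : (6 * (N : ℝ) ^ (3 * β / 2)) ^ 2 = 36 * (N ^ (3 * β - 1) * N) := by
      rw [mul_pow, ← Real.rpow_natCast ((N : ℝ) ^ (3 * β / 2)), ← Real.rpow_mul (by positivity),
        ← Real.rpow_add_one (by positivity)]
      norm_num
    have h6 := Real.one_le_rpow hN1 (show 0 ≤ 3 * β - 1 by linarith)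
    rw [h5] at h2
    generalize (N : ℝ) ^ (3 * β - 1) = w at h2 h6
    have h7 : 36 * (w * N) * N * c + N * |M| + -(4 * (36 * c + 1)) * w * (N * (N - 1) / 2) <
        -(C * N) := by
      have h8 : (36 * c + 1) * w * N * N ≤ (36 * c + 1) * w * N * (2 * (N - 1)) := by
        gcongr; linarith
      have h9 : 1 * N * N ≤ w * N * N := by gcongr
      nlinarith
    nlinarith [mul_lt_mul_of_pos_right h7 p5]
  · by_cases hX : ψ X = 0
    · simp [hX, T]
    have h4 : ∀ i j, indicator (Metric.closedBall 0 1) (fun _ => -(4 * (36 * c + 1)))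
        ((N : ℝ) ^ β • (X i - X j)) = -(4 * (36 * c + 1)) := fun i j =>
      indicator_of_mem (mem_closedBall_zero_iff.mpr
        ((h3 X hX β i j (by linarith)).trans (by norm_num))) _
    have h5 : ∀ i j k, indicator {U : E × E | ‖U.1‖ + ‖U.2‖ + ‖U.1 - U.2‖ ∈ Ioo (1 : ℝ) 5}
        (1 : E × E → ℝ) ((N : ℝ) ^ (1 / 2 : ℝ) • (X i - X j), (N : ℝ) ^ (1 / 2 : ℝ) • (X i - X k)) =
        0 := fun i j k => indicator_of_notMem (fun h => by
      have h6 := h.1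
      simp only [← smul_sub, sub_sub_sub_cancel_left] at h6
      linarith [h3 X hX (1 / 2) i j (by linarith), h3 X hX (1 / 2) i k (by linarith),
        h3 X hX (1 / 2) k j (by linarith)]) _
    simp only [h4, h5, T, mul_zero, ite_self, Finset.sum_const_zero, ← count_pairs N]
    rw [Finset.sum_congr rfl fun i _ => Finset.sum_congr rfl fun j _ => show (if i < j then
      (N : ℝ) ^ (3 * β - 1) * -(4 * (36 * c + 1)) else 0) = (N : ℝ) ^ (3 * β - 1) *
        -(4 * (36 * c + 1)) * if i < j then 1 else 0 by split_ifs <;> simp]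
    simp only [← Finset.mul_sum]
    ring

theorem result (Vext : (Fin 3 → ℝ) → ℝ) (hm : Measurable Vext)
    (hb : ∀ r, ∃ M, ∀ x, ‖x‖ ≤ r → |Vext x| ≤ M) (c α : ℝ) (hc : 0 < c) (_hα : 0 < α)
    (htrap : ∀ x, c * √(∑ a, x a ^ 2) ^ α ≤ Vext x) :
    {β ∈ Ioc (0 : ℝ) 1 | ∀ V W, Admissible V W → Stable Vext V W β} = Ioo 0 (1 / 3) := by
  ext β
  refine ⟨fun ⟨h1, h2⟩ => ⟨h1.1, not_le.mp fun h3 => ?_⟩, fun h => ⟨⟨h.1, by linarith [h.2]⟩,
    fun V W h2 => stable (fun x => le_trans (by positivity) (htrap x)) hm hb h2 h.1 h.2⟩⟩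
  obtain ⟨V, W, h4, h5⟩ := unstable hm hb h3
  exact h5 (h2 V W h4)

end Pool.Agent.Results.MP_a755a8_mp.Threshold
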